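import Pool.Agent.R184CA.LpU

/-! MP_5298e3_an, Q1: yes, the unitization of `K(ℓ_p)_u` is a Calkin algebra. -/

namespace Pool.Agent.Results.MP_5298e3_an.KuCalkin

open Pool.Agent.R184CA
open scoped ENNReal

/-- Let `𝕜` be `ℝ` or `ℂ` and `1 ≤ p ≤ ∞`. The matrix multiplication extends to a continuous
multiplication `m` of the completion `Ku 𝕜 p` of the finitely supported matrices under `‖·‖_u`, and
the unitization of `Ku 𝕜 p` is a Calkin algebra. -/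
theorem result (𝕜 : Type) [RCLike 𝕜] (p : ℝ≥0∞) [Fact (1 ≤ p)] :
    ∃ m : Ku 𝕜 p → Ku 𝕜 p → Ku 𝕜 p, IsKuMul m ∧ IsCalkinMul 𝕜 (Ku 𝕜 p × 𝕜) (unitMul m) :=
  ku_calkin 𝕜 p

end Pool.Agent.Results.MP_5298e3_an.KuCalkin
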